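import Pool.Agent.Helper57.SS.Goals

/-!
# SS, packet ACL: absolute continuity of the image of the representing measure
-/

set_option autoImplicit false

namespace Pool.Agent.Helper27.SS

open MeasureTheory Filter Topology
open scoped ComplexConjugate ENNReal
open Pool.Agent.Helper57.SS

theorem gACL : Pool.Agent.Helper57.SS.G_ACL := by
  intro hUNI Θ1 Θ2 _ _ A B ρ1 ρ2 hA hB hBA h1 h2 he
  set r : Ci × Ci → ℂ := h1.1.mk ρ1 with hr
  have hrm : Measurable r := h1.1.stronglyMeasurable_mk.measurable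
  have hae : ρ1 =ᵐ[Θ1] r := h1.1.ae_eq_mk
  have hri : Integrable r Θ1 := h1.congr hae
  have hwd : (Θ1.withDensity fun z => ‖ρ1 z‖ₑ) = Θ1.withDensity fun z => ‖r z‖ₑ := by
    refine withDensity_congr_ae ?_
    filter_upwards [hae] with z hz
    rw [hz]
  rw [hwd]
  refine Measure.AbsolutelyContinuous.mk fun s hs hs0 => ?_
  rw [Measure.map_apply hA hs, withDensity_apply _ (hA hs)]
  set u : Ci × Ci → ℂ := fun z => conj (r z) / (‖r z‖ : ℂ) with hu
  have hum : Measurable u := by
    have a1 : Measurable fun z => conj (r z) := Complex.continuous_conj.measurable.comp hrm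
    have a2 : Measurable fun z => ((‖r z‖ : ℝ) : ℂ) :=
      Complex.measurable_ofReal.comp hrm.norm
    exact a1.div a2
  have hub : ∀ z, ‖u z‖ ≤ 1 := by
    intro z
    rw [hu]
    simp only [norm_div, RCLike.norm_conj, Complex.norm_real, norm_norm]
    exact div_self_le_one _
  have huv : ∀ z, r z * u z = ((‖r z‖ : ℝ) : ℂ) := by
    intro z
    rw [hu]
    simp only
    by_cases hz : r z = 0
    · simp [hz]
    · have hn : ((‖r z‖ : ℝ) : ℂ) ≠ 0 := by
        rw [Ne, Complex.ofReal_eq_zero, norm_eq_zero]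
        exact hz
      rw [← mul_div_assoc, Complex.mul_conj, Complex.normSq_eq_norm_sq, div_eq_iff hn]
      push_cast
      ring
  set ψ : Ci × Ci → ℂ := s.indicator fun z => u (B z) with hψ
  have hψm : Measurable ψ := (hum.comp hB).indicator hs
  have key := hUNI Θ1 Θ2 A ρ1 ρ2 hA h1 h2 he ψ hψm ⟨1, fun z => by
    rw [hψ]
    by_cases hz : z ∈ s
    · rw [Set.indicator_of_mem hz]
      exact hub _
    · rw [Set.indicator_of_notMem hz]
      simp⟩
  have hR : ∫ z, ρ2 z * ψ z ∂Θ2 = 0 := by
    rw [← integral_zero (Ci × Ci) ℂ (μ := Θ2)]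
    refine integral_congr_ae ?_
    have : ∀ᵐ z ∂Θ2, z ∉ s := by
      rw [ae_iff]
      simpa using hs0
    filter_upwards [this] with z hz
    rw [hψ, Set.indicator_of_notMem hz]
    simp
  have hL : ∫ z, ρ1 z * ψ (A z) ∂Θ1 = ((∫ z, (A ⁻¹' s).indicator (fun z => ‖r z‖) z ∂Θ1 : ℝ) : ℂ) := by
    rw [← integral_complex_ofReal]
    refine integral_congr_ae ?_
    filter_upwards [hae] with z hz
    rw [hz, hψ]
    by_cases hm : A z ∈ s
    · rw [Set.indicator_of_mem hm, Set.indicator_of_mem (show z ∈ A ⁻¹' s from hm), hBA, huv]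
    · rw [Set.indicator_of_notMem hm, Set.indicator_of_notMem (show z ∉ A ⁻¹' s from hm)]
      simp
  rw [hL, hR] at key
  have key2 : ∫ z, (A ⁻¹' s).indicator (fun z => ‖r z‖) z ∂Θ1 = 0 := by
    exact_mod_cast key
  have hint : Integrable (fun z => (A ⁻¹' s).indicator (fun z => ‖r z‖) z) Θ1 :=
    hri.norm.indicator (hA hs)
  rw [integral_eq_zero_iff_of_nonneg (fun z => Set.indicator_nonneg (fun _ _ => norm_nonneg _) z)
    hint] at key2
  rw [← lintegral_indicator (hA hs)]
  rw [lintegral_eq_zero_iff (hrm.enorm.indicator (hA hs))]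
  filter_upwards [key2] with z hz
  by_cases hm : z ∈ A ⁻¹' s
  · rw [Set.indicator_of_mem hm] at hz ⊢
    have : r z = 0 := by simpa using hz
    simp [this]
  · rw [Set.indicator_of_notMem hm]
    simp

end Pool.Agent.Helper27.SS
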