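import Pool.Agent.Helper57.SS.Goals2
import Pool.Agent.Helper49.RS.Erg

/-!
# SS, packet EB: the pointwise ergodic theorem for bounded functions
-/

set_option autoImplicit false

namespace Pool.Agent.Helper27.SS

open MeasureTheory ProbabilityTheory Filter Topology
open Pool.Agent.Helper57.SS

theorem gEB : Pool.Agent.Helper57.SS.G_EB := by
  intro α _ μ _ T hT f hf
  obtain ⟨h, h1, h2, h3, h4⟩ :=
    Pool.Agent.Helper49.RS.exists_lim (μ := μ) T f hf.1 1 zero_le_one hf.2
  have h5 := Pool.Agent.Helper49.RS.birkhoff hT f hf.1 1 hf.2 h h1 h2 h3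
  filter_upwards [h4, h5] with x hx hy
  rw [← hx]
  exact hy

end Pool.Agent.Helper27.SS
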